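import Pool.Agent.H31.SQ.Col
import Pool.Agent.H31.SQ.Low
import Pool.Agent.H31.SQ.Er

/-!
# Squarefree entries of Pascal's triangle: an almost power saving error term

Granville and Ramaré asked whether the number `S(N)` of the squarefree entries in the first `N` rows of Pascal's triangle
is asymptotic to `γ N`, `γ > 0`.  It is (library, `MP_21fe07_nt.LinearCount`; with the error
`O(N exp (-c (log N)^(1/3)))`, `MP_21fe07_nt.ErrorTerm`).  Here: `S(N) = γ N + O(N exp (-c log N / (log log N)^3))`,
uniformly in all arithmetic progressions of rows and for all columns at once, and the density `ρ_k` of the squarefree entries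
of the column `k` is `O(exp (-c √k / (log k)^2))`.

New compared with the library (whose tail estimate for `k ≥ N^δ` and whose limits `ρ_k` are used):
* (`Pool.Agent.H31.SQ.Er`, `Key2`, `Small5`) for `k ≥ (C log N / log log N)^2`: a large sieve for the moduli `p^2`, `p ≈ √k`,
  by the elementary symmetric functions of `|E_p| / p^2 - 1_{E_p}`, `E_p` the residues `n` mod `p^2` for which both digits of
  `n` in base `p` are smaller than those of `k`: the saving does not get lost for large `k`;
* (`Fx1`, `Fx2`, `Fixh5`) for smaller `k` an asymptotic formula with a power saving: Kummer's theorem (only the residue of `n` modulo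
  `p^(⌊log_p k⌋ + 2)` matters), the primes `p ≤ C log N / log log N` exactly, the others by inclusion-exclusion
  truncated by the size of the product and Rankin's trick with the exponent `1 / log log N`.

The lemmas `Trunc`, `Rank`, `Low` are due to helper83, `Kum` and `Er` to helper95.
-/

set_option autoImplicit false

open Finset Filter Topology

namespace Pool.Agent.Results.MP_21fe07_nt.NearPowerSaving

/-- The number of the squarefree entries in the first `N` rows of Pascal's triangle. -/
def S (N : ℕ) : ℕ := ∑ n ∈ range N, ((range (n + 1)).filter (fun k => Squarefree (n.choose k))).card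

/-- The number of the squarefree entries in the rows `n < N` with `n ≡ a (mod q)`. -/
def Sap (q a N : ℕ) : ℕ := ∑ n ∈ (range N).filter (fun n => n % q = a % q),
  ((range (n + 1)).filter (fun k => Squarefree (n.choose k))).card

/-- The number of the `n < N` with `n ≡ a (mod q)`, `2 k < n` and `C(n, k)` squarefree. -/
def col (k q a N : ℕ) : ℕ :=
  ((range N).filter (fun n => n % q = a % q ∧ 2 * k < n ∧ Squarefree (n.choose k))).card

/-- The error term `N exp (-c log N / (log log N)^3)`. -/
noncomputable def Err (c : ℝ) (N : ℕ) : ℝ :=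
  N * Real.exp (-(c * (Real.log N / Real.log (Real.log N) ^ 3)))

/-- (1) `S(N) / N` converges to some `γ > 0` (the question of Granville and Ramaré), and
`|S(N) - γ N| ≤ C N exp (-c log N / (log log N)^3)` for all `N ≥ 16`, for some `C` and `c > 0`.
(2) There are `C` and `c > 0` such that for all `q ≥ 1` and `a` the densities `ρ_k` of the `n ≡ a (mod q)` with `C(n, k)`
squarefree exist, `ρ_k ≤ C exp (-c √k / (log k)^2)` for `k ≥ 2`, `∑ ρ_k ≥ 1 / q`, and for all `N ≥ 16` the sum over all `k < N` of
`|#{n < N : n ≡ a (mod q), 2k < n, C(n, k) squarefree} - ρ_k N|` and the difference of the number of squarefree entries in the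
rows `n < N`, `n ≡ a (mod q)` and `2 (∑ ρ_k) N` are at most `C N exp (-c log N / (log log N)^3)`. -/
theorem result :
    (∃ γ C c : ℝ, 0 < γ ∧ 0 < c ∧ Tendsto (fun N : ℕ => (S N : ℝ) / N) atTop (𝓝 γ) ∧
      ∀ N : ℕ, 16 ≤ N → |(S N : ℝ) - γ * N| ≤ C * Err c N) ∧
    ∃ C c : ℝ, 0 < c ∧ ∀ q : ℕ, 0 < q → ∀ a : ℕ, ∃ ρ : ℕ → ℝ,
      (∀ k, Tendsto (fun N : ℕ => (col k q a N : ℝ) / N) atTop (𝓝 (ρ k))) ∧
      (∀ k, 2 ≤ k → ρ k ≤ C * Real.exp (-(c * (Real.sqrt k / Real.log k ^ 2)))) ∧
      Summable ρ ∧ 1 / (q : ℝ) ≤ ∑' k, ρ k ∧ ∀ N : ℕ, 16 ≤ N →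
        ∑ k ∈ range N, |(col k q a N : ℝ) - ρ k * N| ≤ C * Err c N ∧
        |(Sap q a N : ℝ) - 2 * (∑' k, ρ k) * N| ≤ C * Err c N := by
  obtain ⟨C1, c1, hC1, hc1, h1⟩ := Pool.Agent.H31.SQ.main5 Pool.Agent.H31.SQ.er
    Pool.Agent.H31.SQ.low Pool.Agent.H31.SQ.exh
  obtain ⟨C2, c2, hC2, hc2, h2⟩ := Pool.Agent.H31.SQ.col_decay
    (Pool.Agent.H31.SQ.key2 Pool.Agent.H31.SQ.er)
  have hfin : ∃ C c : ℝ, 0 < C ∧ 0 < c ∧ ∀ q : ℕ, 0 < q → ∀ a : ℕ, ∃ ρ : ℕ → ℝ,
      (∀ k, Tendsto (fun N : ℕ => (col k q a N : ℝ) / N) atTop (𝓝 (ρ k))) ∧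
      (∀ k, 2 ≤ k → ρ k ≤ C * Real.exp (-(c * (Real.sqrt k / Real.log k ^ 2)))) ∧
      Summable ρ ∧ 1 / (q : ℝ) ≤ ∑' k, ρ k ∧ ∀ N : ℕ, 16 ≤ N →
        ∑ k ∈ range N, |(col k q a N : ℝ) - ρ k * N| ≤ C * Err c N ∧
        |(Sap q a N : ℝ) - 2 * (∑' k, ρ k) * N| ≤ C * Err c N := by
    refine ⟨max C1 C2, min c1 c2, lt_of_lt_of_le hC1 (le_max_left _ _), lt_min hc1 hc2,
      fun q hq a => ?_⟩
    obtain ⟨ρ, -, hsum, hS, hlim, hN⟩ := h1 q hq a
    refine ⟨ρ, hlim, fun k hk => ?_, hsum, hS, fun N h16 => ?_⟩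
    · refine (h2 k q a (ρ k) hk (hlim k)).trans ?_
      apply mul_le_mul (le_max_right _ _) _ (Real.exp_pos _).le (le_trans hC1.le (le_max_left _ _))
      apply Real.exp_le_exp.2
      have h3 : (0 : ℝ) ≤ Real.sqrt k / Real.log k ^ 2 := by positivity
      have h4 := mul_le_mul_of_nonneg_right (min_le_right c1 c2) h3
      linarith
    · have h16R : (16 : ℝ) ≤ N := by exact_mod_cast h16
      have hx : (0 : ℝ) ≤ Real.log N / Real.log (Real.log N) ^ 3 := by
        have h3 : Real.exp 1 ≤ Real.log N := by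
          have h3 : Real.log 16 ≤ Real.log N := Real.log_le_log (by norm_num) h16R
          have h4 : Real.log 16 = 4 * Real.log 2 := by
            rw [show (16 : ℝ) = 2 ^ 4 by norm_num, Real.log_pow]
            norm_num
          have h5 := Real.log_two_gt_d9
          have h6 := Real.exp_one_lt_d9
          linarith
        have hlogN0 : 0 < Real.log N := lt_of_lt_of_le (Real.exp_pos 1) h3
        have h4 : 1 ≤ Real.log (Real.log N) := by
          rw [Real.le_log_iff_exp_le hlogN0]
          exact h3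
        positivity
      have hE : C1 * N * Pool.Agent.H31.SQ.EE c1 N ≤ max C1 C2 * Err (min c1 c2) N := by
        unfold Pool.Agent.H31.SQ.EE Err
        rw [mul_assoc]
        apply mul_le_mul (le_max_left _ _) _ (by positivity) (le_trans hC1.le (le_max_left _ _))
        apply mul_le_mul_of_nonneg_left _ (Nat.cast_nonneg _)
        apply Real.exp_le_exp.2
        have h4 := mul_le_mul_of_nonneg_right (min_le_left c1 c2) hx
        linarith
      obtain ⟨a1, a2⟩ := hN N h16
      exact ⟨a1.trans hE, a2.trans hE⟩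
  refine ⟨?_, ?_⟩
  · obtain ⟨C, c, hC, hc, h3⟩ := hfin
    obtain ⟨ρ, -, -, -, hS, hN⟩ := h3 1 one_pos 0
    have hγ : 0 < 2 * ∑' k, ρ k := by
      have : (1 : ℝ) / ((1 : ℕ) : ℝ) = 1 := by norm_num
      rw [this] at hS
      linarith
    have hSS : ∀ N, Sap 1 0 N = S N := by
      intro N
      unfold Sap S
      congr 1
      apply filter_true_of_mem
      intro n _
      simp [Nat.mod_one]
    have hbd : ∀ N : ℕ, 16 ≤ N → |(S N : ℝ) - (2 * ∑' k, ρ k) * N| ≤ C * Err c N := by
      intro N h16
      rw [← hSS]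
      exact (hN N h16).2
    refine ⟨2 * ∑' k, ρ k, C, c, hγ, hc, ?_, hbd⟩
    -- the limit
    have hlog : Tendsto (fun N : ℕ => Real.log (N : ℝ)) atTop atTop :=
      Real.tendsto_log_atTop.comp tendsto_natCast_atTop_atTop
    have hg : Tendsto (fun x : ℝ => x / Real.log x ^ 3) atTop atTop := by
      have h4 : Tendsto (fun x : ℝ => Real.log x ^ 3 / x) atTop (𝓝 0) := by
        have := Real.tendsto_pow_log_div_mul_add_atTop 1 0 3 one_ne_zero
        simpa using this
      have h5 : Tendsto (fun x : ℝ => Real.log x ^ 3 / x) atTop (𝓝[>] 0) := by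
        apply tendsto_nhdsWithin_iff.2 ⟨h4, ?_⟩
        filter_upwards [eventually_gt_atTop (1 : ℝ)] with x hx
        have : 0 < Real.log x := Real.log_pos hx
        exact div_pos (pow_pos this 3) (by linarith)
      have h6 := h5.inv_tendsto_nhdsGT_zero
      refine h6.congr fun x => ?_
      simp
    have hE0 : Tendsto (fun N : ℕ => C * Real.exp (-(c * (Real.log N / Real.log (Real.log N) ^ 3))))
        atTop (𝓝 0) := by
      have h4 : Tendsto (fun N : ℕ => c * (Real.log N / Real.log (Real.log N) ^ 3)) atTop atTop :=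
        (hg.comp hlog).const_mul_atTop hc
      have h5 : Tendsto (fun N : ℕ => Real.exp (-(c * (Real.log N / Real.log (Real.log N) ^ 3))))
          atTop (𝓝 0) := Real.tendsto_exp_neg_atTop_nhds_zero.comp h4
      simpa using h5.const_mul C
    rw [tendsto_iff_norm_sub_tendsto_zero]
    apply squeeze_zero' _ _ hE0
    · filter_upwards with N
      exact norm_nonneg _
    · filter_upwards [eventually_ge_atTop 16] with N h16
      have hN0 : (0 : ℝ) < N := by
        have : 0 < N := by omega
        exact_mod_cast this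
      have h4 : (S N : ℝ) / N - 2 * ∑' k, ρ k = ((S N : ℝ) - (2 * ∑' k, ρ k) * N) / N := by
        field_simp
      rw [Real.norm_eq_abs, h4, abs_div, abs_of_pos hN0, div_le_iff₀ hN0]
      refine (hbd N h16).trans (le_of_eq ?_)
      unfold Err
      ring
  · obtain ⟨C, c, hC, hc, h3⟩ := hfin
    exact ⟨C, c, hc, h3⟩

end Pool.Agent.Results.MP_21fe07_nt.NearPowerSaving
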